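import Pool.Agent.Helper60.AD.Defs
import Pool.Agent.Helper22.AE.C4
import Pool.Agent.Helper22.AE.D3

/-!
# AD, block A3: the phase minus its linear part
-/

open MeasureTheory Real Set Filter Topology

set_option autoImplicit false

namespace Pool.Agent.Helper88.AD

open Pool.Agent.Helper22.AE
open Pool.Agent.Helper92.GC (dt sqa)
open Pool.Agent.Helper60.AD

/-! ### linearity -/

lemma diff_bas88 {L : ℕ} {H₀ : ℝ → ℝ} (h0 : ContDiff ℝ 2 H₀) (i : Ix L) : Differentiable ℝ (bas H₀ i) :=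
  (bas_smooth h0 i).differentiable (by norm_num)

lemma deriv_Hw88 {L : ℕ} {H₀ : ℝ → ℝ} (h0 : ContDiff ℝ 2 H₀) (w : (Fin L → ℝ) × (Fin L → ℝ)) (x : ℝ) :
    deriv (Hw H₀ w) x = ∑ i : Ix L, cf w i * deriv (bas H₀ i) x := by
  rw [Hw_bas]
  refine HasDerivAt.deriv ?_
  refine HasDerivAt.fun_sum fun i _ => ?_
  exact ((diff_bas88 h0 i x).hasDerivAt).const_mul _

theorem lam_sum {L : ℕ} {H₀ : ℝ → ℝ} (h0 : ContDiff ℝ 2 H₀) (w : (Fin L → ℝ) × (Fin L → ℝ)) (θ α : ℝ) (k : ℤ × ℤ) :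
    lam (Hw H₀ w) θ α k = ∑ i : Ix L, cf w i * lam (bas H₀ i) θ α k := by
  have hv : ∀ x, Hw H₀ w x = ∑ i : Ix L, cf w i * bas H₀ i x := fun x => congrFun (Hw_bas H₀ w) x
  unfold lam gph bx dt
  simp only [deriv_Hw88 h0 w, hv]
  simp only [Finset.sum_mul, Finset.mul_sum, ← Finset.sum_sub_distrib, ← Finset.sum_add_distrib]
  refine Finset.sum_congr rfl fun i _ => ?_
  ring

/-! ### continuity -/

lemma cont_deriv88 {h : ℝ → ℝ} (h0 : ContDiff ℝ 2 h) : Continuous (deriv h) :=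
  h0.continuous_deriv (by norm_num)

theorem lam_cont {h : ℝ → ℝ} (h0 : ContDiff ℝ 2 h) (θ : ℝ) (k : ℤ × ℤ) : Continuous (fun α => lam h θ α k) := by
  have h1 := h0.continuous
  have h2 := cont_deriv88 h0
  unfold lam gph bx dt
  fun_prop

/-! ### the size -/

lemma k_eq88 (k : ℤ × ℤ) : (k.1 : ℝ) = nk k * cos (2 * π * xk k) ∧ (k.2 : ℝ) = nk k * sin (2 * π * xk k) := by
  have h1 : (nk k : ℂ) * zk k = cz k := by
    unfold nk zk tk
    exact Complex.norm_mul_exp_arg_mul_I (cz k)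
  rw [zk_xk] at h1
  constructor
  · have := congrArg Complex.re h1
    rw [Complex.re_ofReal_mul, Complex.exp_ofReal_mul_I_re] at this
    simpa [cz] using this.symm
  · have := congrArg Complex.im h1
    rw [Complex.im_ofReal_mul, Complex.exp_ofReal_mul_I_im] at this
    simpa [cz] using this.symm

lemma per_deriv88 {h : ℝ → ℝ} (hp : Function.Periodic h (2 * π)) : Function.Periodic (deriv h) (2 * π) := by
  intro x
  have h1 : (fun y => h (y + 2 * π)) = h := funext hp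
  have h2 := deriv_comp_add_const h (2 * π) x
  rw [h1] at h2
  exact h2.symm

lemma tk_eq88 (k : ℤ × ℤ) : tk k = 2 * π * xk k + (⌊tk k / (2 * π)⌋ : ℤ) * (2 * π) := by
  have h1 : xk k = tk k / (2 * π) - (⌊tk k / (2 * π)⌋ : ℝ) := rfl
  rw [h1]
  field_simp
  ring

lemma phase88 {h : ℝ → ℝ} (hp : Function.Periodic h (2 * π)) (k : ℤ × ℤ) (α : ℝ) :
    nk k * gph h k α = dt k (bx h (2 * π * xk k + α)) := by
  have e : ∀ f : ℝ → ℝ, Function.Periodic f (2 * π) → f (tk k + α) = f (2 * π * xk k + α) := by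
    intro f hf
    rw [tk_eq88 k, show 2 * π * xk k + (⌊tk k / (2 * π)⌋ : ℤ) * (2 * π) + α =
      2 * π * xk k + α + (⌊tk k / (2 * π)⌋ : ℤ) * (2 * π) by ring]
    exact hf.int_mul _ _
  obtain ⟨h1, h2⟩ := k_eq88 k
  unfold gph dt bx
  rw [e h hp, e _ (per_deriv88 hp), h1, h2, cos_add, sin_add]
  have h3 := sin_sq_add_cos_sq (2 * π * xk k)
  set A := h (2 * π * xk k + α)
  set B := deriv h (2 * π * xk k + α)
  set c := cos (2 * π * xk k)
  set s := sin (2 * π * xk k)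
  linear_combination (-(nk k * A * cos α) + nk k * B * sin α) * h3

lemma dtbx_hasDerivAt88 {h : ℝ → ℝ} (h0 : ContDiff ℝ 2 h) (k : ℤ × ℤ) (x : ℝ) :
    HasDerivAt (fun y => dt k (bx h y)) (rho h x * (nk k * sin (2 * π * xk k - x))) x := by
  have h01 : ContDiff ℝ 1 (deriv h) := by
    have h' : ContDiff ℝ (1 + 1) h := by
      have e : (1 + 1 : WithTop ℕ∞) = 2 := by norm_num
      rw [e]
      exact h0
    exact (contDiff_succ_iff_deriv.1 h').2.2
  have hd := (h0.differentiable (by norm_num) x).hasDerivAt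
  have hd1 := (h01.differentiable (by norm_num) x).hasDerivAt
  obtain ⟨h1, h2⟩ := k_eq88 k
  have h3 := ((hd.mul (hasDerivAt_cos x)).sub (hd1.mul (hasDerivAt_sin x))).const_mul (k.1 : ℝ)
  have h4 := ((hd.mul (hasDerivAt_sin x)).add (hd1.mul (hasDerivAt_cos x))).const_mul (k.2 : ℝ)
  have h5 := h3.add h4
  unfold dt bx rho
  refine h5.congr_deriv ?_
  rw [sin_sub, h1, h2]
  ring

lemma sin_le88 (t α x : ℝ) : |sin (t - x)| ≤ |t + α - x| + |sin α| := by
  have e : sin (t - x) = sin (t + α - x) * cos α - cos (t + α - x) * sin α := by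
    rw [← sin_sub]
    congr 1
    ring
  rw [e]
  refine (abs_sub _ _).trans ?_
  rw [abs_mul, abs_mul]
  have h1 : |sin (t + α - x)| * |cos α| ≤ |t + α - x| * 1 :=
    mul_le_mul Real.abs_sin_le_abs (abs_cos_le_one α) (abs_nonneg _) (abs_nonneg _)
  have h2 : |cos (t + α - x)| * |sin α| ≤ 1 * |sin α| :=
    mul_le_mul_of_nonneg_right (abs_cos_le_one _) (abs_nonneg _)
  linarith

theorem lam_le {h : ℝ → ℝ} (h0 : ContDiff ℝ 2 h) (hp : Function.Periodic h (2 * π)) :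
    ∃ C : ℝ, 0 < C ∧ ∀ (B : Finset (ℤ × ℤ)) (N j : ℕ), 1 ≤ N → ∀ α : ℝ, ∀ k ∈ arcSet B N j,
      |lam h (2 * π * (j / N)) α k| ≤ C * (nk k / N * (1 / N + |sin α|)) := by
  obtain ⟨C, hC, hb⟩ := gph_bdd h0 hp
  refine ⟨C * (2 * π) ^ 2, by positivity, fun B N j hN α k hk => ?_⟩
  have hN0 : (0 : ℝ) < N := by exact_mod_cast hN
  have hnk : 0 ≤ nk k := norm_nonneg _
  have hpi : 1 ≤ 2 * π := by linarith [Real.pi_gt_three]
  unfold arcSet at hk
  rw [Finset.mem_filter] at hk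
  have hx0 : 0 ≤ xk k := Int.fract_nonneg _
  have f1 := Nat.floor_le (a := (N : ℝ) * xk k) (by positivity)
  have f2 := Nat.lt_floor_add_one ((N : ℝ) * xk k)
  rw [hk.2] at f1 f2
  have hd : |2 * π * xk k - 2 * π * (j / N)| ≤ 2 * π / N := by
    have e : 2 * π * xk k - 2 * π * (j / N) = (2 * π / N) * (N * xk k - j) := by
      field_simp
    rw [e, abs_mul, abs_of_nonneg (by positivity : (0 : ℝ) ≤ 2 * π / N)]
    have : |(N : ℝ) * xk k - j| ≤ 1 := by
      rw [abs_le]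
      constructor <;> linarith
    calc 2 * π / N * |(N : ℝ) * xk k - j| ≤ 2 * π / N * 1 := mul_le_mul_of_nonneg_left this (by positivity)
      _ = _ := mul_one _
  set t : ℝ := 2 * π * xk k with ht
  set θ : ℝ := 2 * π * (j / N) with hθ
  have hl : lam h θ α k = dt k (bx h (t + α)) - dt k (bx h (θ + α)) := by
    unfold lam
    rw [phase88 hp]
  have hmv := (convex_uIcc (θ + α) (t + α)).norm_image_sub_le_of_norm_hasDerivWithin_le
    (f := fun y => dt k (bx h y)) (f' := fun x => rho h x * (nk k * sin (t - x)))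
    (C := C * (nk k * (2 * π / N + |sin α|))) (fun x _ => (dtbx_hasDerivAt88 h0 k x).hasDerivWithinAt)
    (fun x hx => by
      rw [norm_mul, norm_mul, Real.norm_eq_abs, Real.norm_eq_abs, Real.norm_eq_abs, abs_of_nonneg hnk]
      refine mul_le_mul (hb x).2.2.1 ?_ (by positivity) hC.le
      refine mul_le_mul_of_nonneg_left ((sin_le88 t α x).trans ?_) hnk
      have h1 : |t + α - x| ≤ |t + α - (θ + α)| := by
        have h2 := abs_sub_right_of_mem_uIcc hx
        exact h2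
      have h3 : t + α - (θ + α) = t - θ := by ring
      rw [h3] at h1
      linarith) left_mem_uIcc right_mem_uIcc
  rw [hl]
  rw [Real.norm_eq_abs, Real.norm_eq_abs, show t + α - (θ + α) = t - θ by ring] at hmv
  refine hmv.trans ?_
  have h5 : C * (nk k * (2 * π / N + |sin α|)) * |t - θ| ≤ C * (nk k * (2 * π / N + |sin α|)) * (2 * π / N) :=
    mul_le_mul_of_nonneg_left hd (by positivity)
  refine h5.trans ?_
  have h6 : 2 * π / N + |sin α| ≤ 2 * π * (1 / N + |sin α|) := by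
    have : |sin α| ≤ 2 * π * |sin α| := le_mul_of_one_le_left (abs_nonneg _) hpi
    calc 2 * π / N + |sin α| ≤ 2 * π / N + 2 * π * |sin α| := by linarith
      _ = _ := by ring
  calc C * (nk k * (2 * π / N + |sin α|)) * (2 * π / N)
      ≤ C * (nk k * (2 * π * (1 / N + |sin α|))) * (2 * π / N) := by gcongr
    _ = _ := by ring

theorem lam_blk (L : ℕ) {H₀ : ℝ → ℝ} (h0 : ContDiff ℝ 2 H₀) (hp : Function.Periodic H₀ (2 * π)) :
    ∃ C : ℝ, 0 < C ∧ ∀ (i : Ix L) (n M s j : ℕ), 1 ≤ M → ∀ α : ℝ, ∀ k ∈ arcSet (blk n) (8 * M ^ s) j,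
      |lam (bas H₀ i) (2 * π * (j / ((8 * M ^ s : ℕ) : ℝ))) α k| ≤ C * (2 ^ n / (M : ℝ) ^ s * (1 / (M : ℝ) ^ s + |sin α|)) := by
  choose C hC hb using fun i : Ix L => lam_le (bas_smooth h0 i) (bas_per hp i)
  refine ⟨∑ i, C i, Finset.sum_pos (fun i _ => hC i) ⟨none, Finset.mem_univ _⟩, fun i n M s j hM α k hk => ?_⟩
  have hM0 : (0 : ℝ) < M := by exact_mod_cast hM
  have hMs : (0 : ℝ) < (M : ℝ) ^ s := by positivity
  refine (hb i (blk n) (8 * M ^ s) j (by
    have : 0 < M ^ s := pow_pos hM s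
    omega) α k hk).trans ?_
  have hk' : k ∈ blk n := by
    unfold arcSet at hk
    exact (Finset.mem_filter.1 hk).1
  have hn : nk k < 2 ^ (n + 1) := by
    unfold blk at hk'
    exact (Finset.mem_filter.1 hk').2.2
  have h1 : C i ≤ ∑ i, C i := Finset.single_le_sum (fun i _ => (hC i).le) (Finset.mem_univ i)
  have h2 : nk k / ((8 * M ^ s : ℕ) : ℝ) ≤ 2 ^ n / (M : ℝ) ^ s := by
    push_cast
    rw [div_le_div_iff₀ (by positivity) hMs]
    have : nk k ≤ 2 ^ n * 8 := by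
      rw [pow_succ] at hn
      have : (0 : ℝ) < 2 ^ n := by positivity
      linarith
    calc nk k * (M : ℝ) ^ s ≤ 2 ^ n * 8 * (M : ℝ) ^ s := mul_le_mul_of_nonneg_right this hMs.le
      _ = _ := by ring
  have h3 : 1 / ((8 * M ^ s : ℕ) : ℝ) ≤ 1 / (M : ℝ) ^ s := by
    refine one_div_le_one_div_of_le hMs ?_
    push_cast
    linarith
  have hnk : 0 ≤ nk k := norm_nonneg _
  have hC0 := hC i
  refine mul_le_mul h1 (mul_le_mul h2 (by linarith) (by positivity) (by positivity)) (by positivity)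
    (hC0.le.trans h1)

end Pool.Agent.Helper88.AD
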